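import Pool.Agent.Work.MP_46fa68_11.Cheb
import Pool.Agent.Work.MP_46fa68_T.Near2

/-!
# MP_46fa68_co: rows of a configuration of a level
-/

set_option autoImplicit false

open Finset

namespace Pool.JM

/-- longer rows are above -/
theorem ln_mono {B : Finset ℕ} {x y : ℕ} (hy : y ∈ B) (hyx : y ≤ x) : ln B y ≤ ln B x := by
  rcases eq_or_lt_of_le hyx with rfl | hlt
  · exact le_rfl
  · have h1 := ln_add B x
    have h2 := ln_add B y
    have h3 : blw B x - blw B y ≤ x - y := by
      have e1 : blw B x = blw B y + (B.filter (fun z => y ≤ z ∧ z < x)).card := by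
        unfold blw
        rw [← card_union_of_disjoint]
        · congr 1
          ext z
          simp only [mem_union, mem_filter]
          constructor
          · rintro ⟨h3, h4⟩
            by_cases h5 : z < y
            · exact Or.inl ⟨h3, h5⟩
            · exact Or.inr ⟨h3, by omega, h4⟩
          · rintro (⟨h3, h4⟩ | ⟨h3, h4, h5⟩)
            · exact ⟨h3, by omega⟩
            · exact ⟨h3, h5⟩
        · rw [disjoint_left]
          intro z hz hz'
          have := (mem_filter.1 hz).2
          have := (mem_filter.1 hz').2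
          omega
      have e2 : (B.filter (fun z => y ≤ z ∧ z < x)).card ≤ x - y := by
        rw [← Nat.card_Ico]
        refine card_le_card fun z hz => ?_
        have := (mem_filter.1 hz).2
        exact mem_Ico.2 this
      omega
    have h4 : blw B y ≤ blw B x := (blw_lt_of_mem hy hlt).le
    omega

/-- the sum of the vacuum positions -/
theorem sum_blw (C : Finset ℕ) : ∑ y ∈ C, blw C y = ∑ z ∈ range C.card, z := by
  induction C using Finset.induction_on_max with
  | empty => simp
  | insert a S ha ih =>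
    have hn : a ∉ S := fun h => lt_irrefl a (ha a h)
    rw [card_insert_of_notMem hn, sum_insert hn, sum_range_succ, ← ih, add_comm]
    have h1 : blw (insert a S) a = S.card := by
      unfold blw
      congr 1
      rw [filter_insert, if_neg (lt_irrefl a)]
      exact filter_true_of_mem fun y hy => ha y hy
    rw [h1]
    congr 1
    refine sum_congr rfl fun y hy => ?_
    unfold blw
    rw [filter_insert, if_neg (by have := ha y hy; omega)]

/-- **the number of boxes** -/
theorem sum_ln {K N : ℕ} {B : Finset ℕ} (hB : B ∈ Lv K N) : ∑ b ∈ B, ln B b = N := by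
  obtain ⟨h1, -, -, h4⟩ := Lv_spec hB
  have h5 : ∑ b ∈ B, (ln B b + blw B b) = ∑ b ∈ B, b := sum_congr rfl fun b _ => ln_add B b
  rw [sum_add_distrib, sum_blw, h1] at h5
  omega

/-- boxes: rows below, the row itself, rows above -/
theorem boxes {K N : ℕ} {B : Finset ℕ} (hB : B ∈ Lv K N) {x : ℕ} (hx : x ∈ B) :
    bx B x + ln B x + ∑ b ∈ B.filter (x < ·), ln B b = N := by
  rw [← sum_ln hB, ← sum_erase_add B _ hx]
  unfold bx
  have h1 : ∑ b ∈ B.erase x, ln B b =
      ∑ b ∈ B.filter (· < x), ln B b + ∑ b ∈ B.filter (x < ·), ln B b := by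
    rw [← sum_union]
    · refine sum_congr ?_ fun _ _ => rfl
      ext y
      simp only [mem_union, mem_filter, mem_erase]
      constructor
      · rintro ⟨h1, h2⟩
        rcases lt_or_gt_of_ne h1 with h | h
        · exact Or.inl ⟨h2, h⟩
        · exact Or.inr ⟨h2, h⟩
      · rintro (⟨h1, h2⟩ | ⟨h1, h2⟩)
        · exact ⟨by omega, h1⟩
        · exact ⟨by omega, h1⟩
    · rw [disjoint_left]
      intro y hy hy'
      have := (mem_filter.1 hy).2
      have := (mem_filter.1 hy').2
      omega
  rw [h1]
  omega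

/-- the position of a bead in terms of row index and row length -/
theorem pos_eq {K N : ℕ} {B : Finset ℕ} (hB : B ∈ Lv K N) {x : ℕ} (hx : x ∈ B) :
    x + upr B x + 1 = K + ln B x := by
  have h1 := blw_add_upr hx
  have h2 := ln_add B x
  rw [(Lv_spec hB).1] at h1
  omega

/-- the rows above are at least as long: `(upr + 1) * ln ≤ N - bx` -/
theorem upr_mul_ln {K N : ℕ} {B : Finset ℕ} (hB : B ∈ Lv K N) {x : ℕ} (hx : x ∈ B) :
    bx B x + (upr B x + 1) * ln B x ≤ N := by
  have h1 := boxes hB hx
  have h2 : upr B x * ln B x ≤ ∑ b ∈ B.filter (x < ·), ln B b := by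
    unfold upr
    rw [← smul_eq_mul, ← sum_const]
    refine sum_le_sum fun b hb => ln_mono hx (mem_filter.1 hb).2.le
  have h3 : (upr B x + 1) * ln B x = upr B x * ln B x + ln B x := by ring
  omega

/-- the top bead -/
theorem top_row {K N x : ℕ} {B : Finset ℕ} (hB : B ∈ Lv K N) (hx : x ∈ B) (h : ∀ y ∈ B, y ≤ x) :
    x + 1 = K + ln B x ∧ bx B x + ln B x = N := by
  have h1 : B.filter (x < ·) = ∅ := by
    rw [filter_eq_empty_iff]
    intro y hy
    have := h y hy
    omega
  have h2 := boxes hB hx
  have h3 := pos_eq hB hx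
  rw [h1, sum_empty] at h2
  unfold upr at h3
  rw [h1, card_empty] at h3
  omega

/-- the second bead -/
theorem second_row {K N x y : ℕ} {B : Finset ℕ} (hB : B ∈ Lv K N) (hx : x ∈ B) (hy : y ∈ B)
    (hyx : y < x) (h : ∀ z ∈ B, z ≠ x → z ≤ y) :
    y + 2 = K + ln B y ∧ bx B y + ln B y + ln B x = N := by
  have h1 : B.filter (y < ·) = {x} := by
    ext z
    simp only [mem_filter, mem_singleton]
    constructor
    · rintro ⟨h1, h2⟩
      by_contra hne
      have := h z h1 hne
      omega
    · rintro rfl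
      exact ⟨hx, hyx⟩
  have h2 := boxes hB hy
  have h3 := pos_eq hB hy
  rw [h1, sum_singleton] at h2
  unfold upr at h3
  rw [h1, card_singleton] at h3
  omega

/-- a bead of row `≥ 3` -/
theorem two_above {B : Finset ℕ} {x y z : ℕ} (hx : x ∈ B) (hy : y ∈ B) (hyx : y < x) (hz : z < y) :
    2 ≤ upr B z := by
  unfold upr
  have h1 : ({x, y} : Finset ℕ) ⊆ B.filter (z < ·) := by
    intro w hw
    simp only [mem_insert, mem_singleton] at hw
    rcases hw with rfl | rfl
    · exact mem_filter.2 ⟨hx, by omega⟩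
    · exact mem_filter.2 ⟨hy, hz⟩
  have h2 := card_le_card h1
  rwa [card_pair (by omega)] at h2

/-- two top beads: `B = {x, y} ∪ (rest below y)` -/
theorem exists_two_top {B : Finset ℕ} (h : 2 ≤ B.card) : ∃ x ∈ B, ∃ y ∈ B, y < x ∧
    (∀ z ∈ B, z ≤ x) ∧ (∀ z ∈ B, z ≠ x → z ≤ y) := by
  have hB : B.Nonempty := card_pos.1 (by omega)
  set x := B.max' hB with hx
  have h1 : (B.erase x).Nonempty := by
    rw [← card_pos, card_erase_of_mem (B.max'_mem hB)]
    omega
  have h2 := (B.erase x).max'_mem h1
  refine ⟨x, B.max'_mem hB, (B.erase x).max' h1, mem_of_mem_erase h2, ?_, fun z hz => B.le_max' z hz,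
    fun z hz hne => (B.erase x).le_max' z (mem_erase.2 ⟨hne, hz⟩)⟩
  exact lt_of_le_of_ne (B.le_max' _ (mem_of_mem_erase h2)) (ne_of_mem_erase h2)

/-- the first row of the configuration without the top bead -/
theorem lt_erase_top {K N x y : ℕ} {B : Finset ℕ} (hB : B ∈ Lv (K + 1) N) (hx : x ∈ B) (hy : y ∈ B)
    (hyx : y < x) (h : ∀ z ∈ B, z ≠ x → z ≤ y) : ∀ z ∈ B.erase x, z < K + ln B y := by
  intro z hz
  have h1 := (second_row hB hx hy hyx h).1
  have h2 := h z (mem_of_mem_erase hz) (ne_of_mem_erase hz)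
  omega

/-- the first row of the configuration without another bead -/
theorem lt_erase_other {K N x : ℕ} {B : Finset ℕ} (hB : B ∈ Lv (K + 1) N) (hx : x ∈ B)
    (h : ∀ y ∈ B, y ≤ x) (w : ℕ) : ∀ z ∈ B.erase w, z < K + (ln B x + 1) := by
  intro z hz
  have h1 := (top_row hB hx h).1
  have h2 := h z (mem_of_mem_erase hz)
  omega

end Pool.JM
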