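import Pool.Agent.Work.MP_46fa68_56.RDefs
import Pool.Agent.Work.MP_46fa68_11.Rows

/-!
# MP_46fa68_co: the names of `RDefs` in terms of the hook lemmas
-/

set_option autoImplicit false

open Finset

namespace Pool.JM

theorem gp_eq (B : Finset ℕ) (x : ℕ) : LR.gp B x = ln B x := hl_card B x

theorem bx_eq (B : Finset ℕ) (x : ℕ) : LR.bx B x = bx B x := by
  unfold LR.bx bx
  exact sum_congr rfl fun z _ => gp_eq B z

theorem hk_eq' (B : Finset ℕ) (x : ℕ) : LR.hk B x = hk B x := rfl

theorem up_eq (B : Finset ℕ) (x : ℕ) : LR.up B x = da B x := rfl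

theorem rk_eq {B : Finset ℕ} {x : ℕ} (hx : x ∈ B) : LR.rk B x = upr B x + 1 := by
  unfold LR.rk upr
  have h1 : B.filter (x ≤ ·) = insert x (B.filter (x < ·)) := by
    ext y
    simp only [mem_filter, mem_insert]
    constructor
    · rintro ⟨h1, h2⟩
      by_cases h : y = x
      · exact Or.inl h
      · exact Or.inr ⟨h1, by omega⟩
    · rintro (rfl | ⟨h1, h2⟩)
      · exact ⟨hx, le_rfl⟩
      · exact ⟨h1, h2.le⟩
  rw [h1, card_insert_of_notMem]
  exact fun h => lt_irrefl x (mem_filter.1 h).2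

end Pool.JM
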