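import Pool.Agent.Work.MP_46fa68_11.Hook2
import Mathlib.Algebra.Order.Chebyshev

/-!
# MP_46fa68_co: the Chebyshev bound of the hook product of a row

`hk_cheb`: `hk B x ≤ ∏_(l < a) (l + 1 + ρ)`, `a = ln B x` the row length, `ρ a ≥ bx B x` (boxes below).
-/

set_option autoImplicit false

open Finset

namespace Pool.JM

/-- the holes below `x` -/
def hl (B : Finset ℕ) (x : ℕ) : Finset ℕ := (range x).filter (· ∉ B)

/-- rank from above -/
def rk (H : Finset ℕ) (h : ℕ) : ℕ := (H.filter (h ≤ ·)).card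

/-- number of beads between `h` and `x` -/
def nb (B : Finset ℕ) (x h : ℕ) : ℕ := ((B.filter (· < x)).filter (h < ·)).card

theorem mem_hl {B : Finset ℕ} {x h : ℕ} : h ∈ hl B x ↔ h < x ∧ h ∉ B := by
  simp [hl]

theorem hl_card (B : Finset ℕ) (x : ℕ) : (hl B x).card = ln B x := by
  have h1 : B.filter (· < x) = (range x).filter (· ∈ B) := by
    ext y
    simp only [mem_filter, mem_range]
    tauto
  have h2 := card_filter_add_card_filter_not (s := range x) (· ∈ B)
  rw [card_range] at h2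
  unfold ln blw hl
  rw [h1]
  omega

theorem hk_holes (B : Finset ℕ) (x : ℕ) : hk B x = ∏ h ∈ hl B x, ((x : ℝ) - h) := by
  have h1 : B.filter (· < x) = (range x).filter (· ∈ B) := by
    ext y
    simp only [mem_filter, mem_range]
    tauto
  have h2 : (x.factorial : ℝ) = ∏ z ∈ range x, ((x : ℝ) - z) := by
    have := x_fact x x le_rfl
    rw [Nat.sub_self, Nat.factorial_zero, Nat.cast_one, one_mul] at this
    exact this
  have h3 := prod_filter_mul_prod_filter_not (range x) (· ∈ B) (fun z : ℕ => (x : ℝ) - z)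
  have h4 := below_pos B x
  unfold hk hl
  rw [div_eq_iff h4.ne', h2, ← h3, h1, mul_comm]

theorem sub_hole {B : Finset ℕ} {x h : ℕ} (hh : h ∈ hl B x) : x = h + rk (hl B x) h + nb B x h := by
  obtain ⟨h1, h2⟩ := mem_hl.1 hh
  have e1 : (hl B x).filter (h ≤ ·) = (Ico h x).filter (· ∉ B) := by
    ext y
    simp only [mem_filter, mem_hl, mem_Ico]
    tauto
  have e2 : (B.filter (· < x)).filter (h < ·) = (Ico h x).filter (· ∈ B) := by
    ext y
    simp only [mem_filter, mem_Ico]
    constructor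
    · rintro ⟨⟨h3, h4⟩, h5⟩
      exact ⟨⟨h5.le, h4⟩, h3⟩
    · rintro ⟨⟨h3, h4⟩, h5⟩
      refine ⟨⟨h5, h4⟩, lt_of_le_of_ne h3 ?_⟩
      rintro rfl
      exact h2 h5
  have h3 := card_filter_add_card_filter_not (s := Ico h x) (· ∈ B)
  rw [Nat.card_Ico] at h3
  unfold rk nb
  rw [e1, e2]
  omega

theorem sum_nb (B : Finset ℕ) (x : ℕ) : ∑ h ∈ hl B x, nb B x h = bx B x := by
  unfold bx nb
  simp only [card_filter]
  rw [sum_comm]
  refine sum_congr rfl fun b hb => ?_
  rw [← card_filter, ← hl_card B b]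
  congr 1
  ext y
  have := (mem_filter.1 hb).2
  simp only [mem_filter, mem_hl]
  constructor
  · rintro ⟨⟨h1, h2⟩, h3⟩
    exact ⟨h3, h2⟩
  · rintro ⟨h3, h2⟩
    exact ⟨⟨by omega, h2⟩, h3⟩

theorem prod_rk (f : ℕ → ℝ) (H : Finset ℕ) : ∏ h ∈ H, f (rk H h) = ∏ l ∈ range H.card, f (l + 1) := by
  induction H using Finset.induction_on_min with
  | empty => simp
  | insert a S ha ih =>
    have hn : a ∉ S := fun h => lt_irrefl a (ha a h)
    rw [card_insert_of_notMem hn, prod_insert hn, prod_range_succ, ← ih, mul_comm]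
    have h1 : rk (insert a S) a = S.card + 1 := by
      unfold rk
      rw [filter_true_of_mem, card_insert_of_notMem hn]
      intro y hy
      rcases mem_insert.1 hy with rfl | hy
      · exact le_rfl
      · exact (ha y hy).le
    rw [h1]
    congr 1
    refine prod_congr rfl fun y hy => ?_
    congr 1
    unfold rk
    rw [filter_insert, if_neg (by have := ha y hy; omega)]

/-- **the Chebyshev bound** -/
theorem hk_cheb (B : Finset ℕ) (x : ℕ) {ρ : ℝ} (hρ0 : 0 ≤ ρ) (hρ : (bx B x : ℝ) ≤ ρ * ln B x) :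
    hk B x ≤ ∏ l ∈ range (ln B x), ((l : ℝ) + 1 + ρ) := by
  have h0 : ∀ h ∈ hl B x, (1 : ℝ) ≤ rk (hl B x) h := by
    intro h hh
    have : 0 < rk (hl B x) h := card_pos.2 ⟨h, mem_filter.2 ⟨hh, le_rfl⟩⟩
    exact_mod_cast this
  have h1 : hk B x = ∏ h ∈ hl B x, ((rk (hl B x) h : ℝ) + nb B x h) := by
    rw [hk_holes]
    refine prod_congr rfl fun h hh => ?_
    have : ((h + rk (hl B x) h + nb B x h : ℕ) : ℝ) = x := by exact_mod_cast (sub_hole hh).symm
    push_cast at this
    linarith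
  have h2 : ∀ h ∈ hl B x, ((rk (hl B x) h : ℝ) + nb B x h) ≤
      ((rk (hl B x) h : ℝ) + ρ) * Real.exp (((nb B x h : ℝ) - ρ) * (1 / ((rk (hl B x) h : ℝ) + ρ))) := by
    intro h hh
    have h3 := h0 h hh
    have h4 := Real.add_one_le_exp (((nb B x h : ℝ) - ρ) * (1 / ((rk (hl B x) h : ℝ) + ρ)))
    have h5 : (0 : ℝ) < (rk (hl B x) h : ℝ) + ρ := by linarith
    calc ((rk (hl B x) h : ℝ) + nb B x h)
        = ((rk (hl B x) h : ℝ) + ρ) * (((nb B x h : ℝ) - ρ) * (1 / ((rk (hl B x) h : ℝ) + ρ)) + 1) := by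
          field_simp
          ring
      _ ≤ _ := mul_le_mul_of_nonneg_left h4 h5.le
  have h3 : AntivaryOn (fun h : ℕ => (nb B x h : ℝ) - ρ) (fun h : ℕ => 1 / ((rk (hl B x) h : ℝ) + ρ))
      (hl B x : Set ℕ) := by
    intro i hi j hj hij
    have hi' := h0 i (mem_coe.1 hi)
    have hj' := h0 j (mem_coe.1 hj)
    have h4 : (rk (hl B x) j : ℝ) < rk (hl B x) i := by
      by_contra hc
      push Not at hc
      have : 1 / ((rk (hl B x) j : ℝ) + ρ) ≤ 1 / ((rk (hl B x) i : ℝ) + ρ) :=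
        one_div_le_one_div_of_le (by linarith) (by linarith)
      simp only at hij
      linarith
    have h5 : i < j := by
      by_contra hc
      push Not at hc
      have : rk (hl B x) i ≤ rk (hl B x) j := by
        unfold rk
        refine card_le_card fun y hy => ?_
        have := mem_filter.1 hy
        exact mem_filter.2 ⟨this.1, by omega⟩
      have : (rk (hl B x) i : ℝ) ≤ rk (hl B x) j := by exact_mod_cast this
      linarith
    have h6 : nb B x j ≤ nb B x i := by
      unfold nb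
      refine card_le_card fun y hy => ?_
      have := mem_filter.1 hy
      exact mem_filter.2 ⟨this.1, by omega⟩
    have h7 : (nb B x j : ℝ) ≤ nb B x i := by exact_mod_cast h6
    simp only
    linarith
  have h4 : ∑ h ∈ hl B x, ((nb B x h : ℝ) - ρ) ≤ 0 := by
    rw [sum_sub_distrib, sum_const, hl_card, nsmul_eq_mul]
    have : (∑ h ∈ hl B x, (nb B x h : ℝ)) = bx B x := by exact_mod_cast sum_nb B x
    rw [this]
    linarith [mul_comm (ρ) (ln B x : ℝ)]
  have h5 : ∑ h ∈ hl B x, ((nb B x h : ℝ) - ρ) * (1 / ((rk (hl B x) h : ℝ) + ρ)) ≤ 0 := by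
    have h6 := h3.card_mul_sum_le_sum_mul_sum
    have h7 : (∑ h ∈ hl B x, ((nb B x h : ℝ) - ρ)) * ∑ h ∈ hl B x, (1 / ((rk (hl B x) h : ℝ) + ρ)) ≤ 0 := by
      refine mul_nonpos_of_nonpos_of_nonneg h4 (sum_nonneg fun h hh => ?_)
      have := h0 h hh
      exact div_nonneg zero_le_one (by linarith)
    rcases Nat.eq_zero_or_pos (hl B x).card with h8 | h8
    · rw [card_eq_zero] at h8
      rw [h8, sum_empty]
    · have h9 : (0 : ℝ) < (hl B x).card := by exact_mod_cast h8
      by_contra hc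
      push Not at hc
      have := mul_pos h9 hc
      linarith
  rw [h1]
  calc ∏ h ∈ hl B x, ((rk (hl B x) h : ℝ) + nb B x h)
      ≤ ∏ h ∈ hl B x, (((rk (hl B x) h : ℝ) + ρ) *
          Real.exp (((nb B x h : ℝ) - ρ) * (1 / ((rk (hl B x) h : ℝ) + ρ)))) :=
        prod_le_prod (fun h _ => by positivity) h2
    _ = (∏ h ∈ hl B x, ((rk (hl B x) h : ℝ) + ρ)) *
          Real.exp (∑ h ∈ hl B x, ((nb B x h : ℝ) - ρ) * (1 / ((rk (hl B x) h : ℝ) + ρ))) := by
        rw [prod_mul_distrib, Real.exp_sum]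
    _ ≤ (∏ h ∈ hl B x, ((rk (hl B x) h : ℝ) + ρ)) * 1 := by
        refine mul_le_mul_of_nonneg_left ?_ (prod_nonneg fun h _ => by positivity)
        exact Real.exp_le_one_iff.2 h5
    _ = ∏ l ∈ range (ln B x), ((l : ℝ) + 1 + ρ) := by
        rw [mul_one, prod_rk (fun n => (n : ℝ) + ρ) (hl B x), hl_card]
        refine prod_congr rfl fun l _ => ?_
        push_cast
        ring

/-- **the Chebyshev bound of the hook factor** -/
theorem hf_cheb (B : Finset ℕ) (x : ℕ) {ρ : ℝ} (hρ0 : 0 ≤ ρ) (hρ : (bx B x : ℝ) ≤ ρ * ln B x) :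
    hf B x ≤ ∏ l ∈ range (ln B x), (1 + ρ / ((l : ℝ) + 1)) := by
  have h1 := hk_cheb B x hρ0 hρ
  rw [hk_eq] at h1
  have h2 : (0 : ℝ) < (ln B x).factorial := by exact_mod_cast (ln B x).factorial_pos
  have h3 : ∏ l ∈ range (ln B x), ((l : ℝ) + 1 + ρ) =
      ((ln B x).factorial : ℝ) * ∏ l ∈ range (ln B x), (1 + ρ / ((l : ℝ) + 1)) := by
    rw [← prod_range_add_one_eq_factorial]
    push_cast
    rw [← prod_mul_distrib]
    refine prod_congr rfl fun l _ => ?_
    have : (l : ℝ) + 1 ≠ 0 := by positivity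
    field_simp
  rw [h3] at h1
  exact le_of_mul_le_mul_left h1 h2

/-- with `ρ = 1` (at least as many boxes in the row as below it): `hf ≤ a + 1` -/
theorem hf_le_succ (B : Finset ℕ) (x : ℕ) (h : bx B x ≤ ln B x) : hf B x ≤ (ln B x : ℝ) + 1 := by
  have h1 := hf_cheb B x (ρ := 1) zero_le_one (by rw [one_mul]; exact_mod_cast h)
  refine h1.trans (le_of_eq ?_)
  generalize ln B x = a
  induction a with
  | zero => simp
  | succ a ih =>
    rw [prod_range_succ, ih]
    have : (a : ℝ) + 1 ≠ 0 := by positivity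
    push_cast
    field_simp

end Pool.JM
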