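import Pool.Agent.Work.MP_46fa68_T.Op

/-!
# MP_46fa68_co: the ratio `ex (B.erase x) / ex B` in row coordinates, hook products of a row

`B` is a set of beads, `x ∈ B`.  `blw B x` = number of beads below `x`, `upr B x` = number of beads above
`x` (row index minus 1), `ln B x = x - blw B x` = length of the row, `bx B x` = number of boxes in the
rows below.  `hk B x = x! / ∏_{b < x} (x - b)` is the product of the hook lengths of the row,
`hf B x = hk B x / (ln B x)!` the hook factor.
-/

set_option autoImplicit false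

open Finset

namespace Pool.JM

/-- number of elements of `B` below `x` -/
def blw (B : Finset ℕ) (x : ℕ) : ℕ := (B.filter (· < x)).card

/-- number of elements of `B` above `x` -/
def upr (B : Finset ℕ) (x : ℕ) : ℕ := (B.filter (x < ·)).card

/-- the row length -/
def ln (B : Finset ℕ) (x : ℕ) : ℕ := x - blw B x

/-- number of boxes in the rows below -/
def bx (B : Finset ℕ) (x : ℕ) : ℕ := ∑ b ∈ B.filter (· < x), ln B b

theorem blw_le (B : Finset ℕ) (x : ℕ) : blw B x ≤ x := by
  unfold blw
  have : B.filter (· < x) ⊆ range x := fun y hy => mem_range.2 (mem_filter.1 hy).2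
  have := card_le_card this
  rwa [card_range] at this

theorem ln_add (B : Finset ℕ) (x : ℕ) : ln B x + blw B x = x :=
  Nat.sub_add_cancel (blw_le B x)

theorem blw_add_upr {B : Finset ℕ} {x : ℕ} (hx : x ∈ B) : blw B x + upr B x + 1 = B.card := by
  unfold blw upr
  have h1 : B.filter (· < x) ∪ B.filter (x < ·) = B.erase x := by
    ext y
    simp only [mem_union, mem_filter, mem_erase]
    constructor
    · rintro (⟨h1, h2⟩ | ⟨h1, h2⟩)
      · exact ⟨by omega, h1⟩
      · exact ⟨by omega, h1⟩
    · rintro ⟨h1, h2⟩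
      rcases lt_or_gt_of_ne h1 with h | h
      · exact Or.inl ⟨h2, h⟩
      · exact Or.inr ⟨h2, h⟩
  have h2 : Disjoint (B.filter (· < x)) (B.filter (x < ·)) := by
    rw [disjoint_left]
    intro y hy hy'
    have := (mem_filter.1 hy).2
    have := (mem_filter.1 hy').2
    omega
  rw [← card_union_of_disjoint h2, h1, card_erase_of_mem hx]
  have : 0 < B.card := card_pos.2 ⟨x, hx⟩
  omega

/-! ### the ratio -/

/-- **the ratio for a removed bead** -/
theorem ex_erase {B : Finset ℕ} {x : ℕ} (hx : x ∈ B) :
    ex (B.erase x) = ex B * ((x.factorial : ℝ) / ∏ b ∈ B.erase x, |(x : ℝ) - b|) := by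
  have h2 : ex B = ex (B.erase x) * (∏ y ∈ B.erase x, |(x : ℝ) - y|) / (x.factorial : ℝ) := by
    rw [← ex_insert (notMem_erase x B), insert_erase hx]
  have h3 : (∏ y ∈ B.erase x, |(x : ℝ) - y|) ≠ 0 := by
    refine prod_ne_zero_iff.2 fun y hy => ?_
    rw [abs_ne_zero, sub_ne_zero]
    exact_mod_cast (ne_of_mem_erase hy).symm
  have h4 : (x.factorial : ℝ) ≠ 0 := by exact_mod_cast x.factorial_ne_zero
  rw [h2]
  field_simp

/-- the product of the hook lengths of the row of `x` -/
noncomputable def hk (B : Finset ℕ) (x : ℕ) : ℝ :=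
  (x.factorial : ℝ) / ∏ b ∈ B.filter (· < x), ((x : ℝ) - b)

/-- the product of the distances to the beads above -/
noncomputable def da (B : Finset ℕ) (x : ℕ) : ℝ := ∏ b ∈ B.filter (x < ·), ((b : ℝ) - x)

theorem below_pos (B : Finset ℕ) (x : ℕ) : 0 < ∏ b ∈ B.filter (· < x), ((x : ℝ) - b) := by
  refine prod_pos fun b hb => ?_
  have : (b : ℝ) < x := by exact_mod_cast (mem_filter.1 hb).2
  linarith

theorem hk_pos (B : Finset ℕ) (x : ℕ) : 0 < hk B x :=
  div_pos (by exact_mod_cast x.factorial_pos) (below_pos B x)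

theorem da_pos (B : Finset ℕ) (x : ℕ) : 0 < da B x := by
  refine prod_pos fun b hb => ?_
  have : (x : ℝ) < b := by exact_mod_cast (mem_filter.1 hb).2
  linarith

/-- **the ratio: hooks of the row over the distances to the rows above** -/
theorem ex_erase' {B : Finset ℕ} {x : ℕ} (hx : x ∈ B) :
    ex (B.erase x) = ex B * (hk B x / da B x) := by
  rw [ex_erase hx]
  congr 1
  have h3 : ∏ y ∈ B.erase x, |(x : ℝ) - y| =
      (∏ y ∈ B.filter (· < x), ((x : ℝ) - y)) * da B x := by
    have e1 : ∏ y ∈ B.filter (· < x), ((x : ℝ) - y) =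
        ∏ y ∈ (B.erase x).filter (· < x), ((x : ℝ) - y) := by
      refine prod_congr ?_ fun _ _ => rfl
      ext y
      simp only [mem_filter, mem_erase]
      constructor
      · rintro ⟨h1, h2⟩
        exact ⟨⟨by omega, h1⟩, h2⟩
      · rintro ⟨⟨-, h1⟩, h2⟩
        exact ⟨h1, h2⟩
    have e2 : da B x = ∏ y ∈ (B.erase x).filter (x < ·), ((y : ℝ) - x) := by
      unfold da
      refine prod_congr ?_ fun _ _ => rfl
      ext y
      simp only [mem_filter, mem_erase]
      constructor
      · rintro ⟨h1, h2⟩
        exact ⟨⟨by omega, h1⟩, h2⟩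
      · rintro ⟨⟨-, h1⟩, h2⟩
        exact ⟨h1, h2⟩
    rw [e1, e2, prod_filter, prod_filter, ← prod_mul_distrib]
    refine prod_congr rfl fun y hy => ?_
    rcases lt_or_gt_of_ne (ne_of_mem_erase hy) with h | h
    · have h' : (y : ℝ) < x := by exact_mod_cast h
      rw [if_pos h, if_neg (by omega), mul_one, abs_of_pos (by linarith)]
    · have h' : (x : ℝ) < y := by exact_mod_cast h
      rw [if_neg (by omega), if_pos h, one_mul, abs_of_neg (by linarith)]
      ring
  rw [h3]
  unfold hk
  rw [div_div]

/-- the top bead: no bead above -/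
theorem da_top {B : Finset ℕ} {x : ℕ} (h : ∀ y ∈ B, y ≤ x) : da B x = 1 := by
  unfold da
  refine prod_eq_one fun y hy => ?_
  have := (mem_filter.1 hy).2
  have := h y (mem_filter.1 hy).1
  omega

/-- the second bead -/
theorem da_second {B : Finset ℕ} {x y : ℕ} (hx : x ∈ B) (hyx : y < x)
    (h : ∀ z ∈ B, z ≠ x → z ≤ y) : da B y = (x : ℝ) - y := by
  unfold da
  have : B.filter (y < ·) = {x} := by
    ext z
    simp only [mem_filter, mem_singleton]
    constructor
    · rintro ⟨h1, h2⟩
      by_contra hne
      have := h z h1 hne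
      omega
    · rintro rfl
      exact ⟨hx, hyx⟩
  rw [this, prod_singleton]

/-- a product of distances from `0` to `n` different positive integers is at least `n!` -/
theorem fact_le_prod_pos (S : Finset ℕ) : (∀ z ∈ S, 1 ≤ z) → (S.card.factorial : ℝ) ≤ ∏ z ∈ S, (z : ℝ) := by
  induction S using Finset.induction_on_max with
  | empty => simp
  | insert a S ha ih =>
    intro h
    have hn : a ∉ S := fun h => lt_irrefl a (ha a h)
    rw [card_insert_of_notMem hn, prod_insert hn, Nat.factorial_succ]
    have h1 : S.card + 1 ≤ a := by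
      have h2 : insert 0 S ⊆ range a := by
        intro y hy
        rcases mem_insert.1 hy with rfl | hy
        · exact mem_range.2 (h a (mem_insert_self _ _))
        · exact mem_range.2 (ha y hy)
      have h3 := card_le_card h2
      rwa [card_range, card_insert_of_notMem fun h0 => by
        have := h 0 (mem_insert_of_mem h0)
        omega] at h3
    push_cast
    have h4 : ((S.card : ℝ) + 1) ≤ a := by exact_mod_cast h1
    exact mul_le_mul h4 (ih fun z hz => h z (mem_insert_of_mem hz)) (by positivity) (by positivity)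

/-- the distances to the beads above are different positive integers -/
theorem da_ge (B : Finset ℕ) (x : ℕ) : ((upr B x).factorial : ℝ) ≤ da B x := by
  have h1 : da B x = ∏ z ∈ (B.filter (x < ·)).image (fun b => b - x), (z : ℝ) := by
    rw [prod_image]
    · unfold da
      refine prod_congr rfl fun b hb => ?_
      have := (mem_filter.1 hb).2
      rw [Nat.cast_sub (by omega)]
    · intro a ha b hb h
      have h1 := (mem_filter.1 (mem_coe.1 ha)).2
      have h2 := (mem_filter.1 (mem_coe.1 hb)).2
      have h' : a - x = b - x := h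
      omega
  have h2 : ((B.filter (x < ·)).image (fun b => b - x)).card = upr B x := by
    unfold upr
    refine card_image_of_injOn fun a ha b hb h => ?_
    have h1 := (mem_filter.1 (mem_coe.1 ha)).2
    have h2 := (mem_filter.1 (mem_coe.1 hb)).2
    have h' : a - x = b - x := h
    omega
  rw [h1, ← h2]
  refine fact_le_prod_pos _ fun z hz => ?_
  obtain ⟨b, hb, rfl⟩ := mem_image.1 hz
  have := (mem_filter.1 hb).2
  omega

/-! ### the hooks in row coordinates -/

/-- the vacuum positions -/
theorem prod_blw (f : ℕ → ℝ) (C : Finset ℕ) : ∏ y ∈ C, f (blw C y) = ∏ z ∈ range C.card, f z := by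
  induction C using Finset.induction_on_max with
  | empty => simp
  | insert a S ha ih =>
    have hn : a ∉ S := fun h => lt_irrefl a (ha a h)
    rw [card_insert_of_notMem hn, prod_insert hn, prod_range_succ, ← ih, mul_comm]
    have h1 : blw (insert a S) a = S.card := by
      unfold blw
      congr 1
      rw [filter_insert, if_neg (lt_irrefl a)]
      exact filter_true_of_mem fun y hy => ha y hy
    rw [h1]
    congr 1
    refine prod_congr rfl fun y hy => ?_
    congr 1
    unfold blw
    rw [filter_insert, if_neg (by have := ha y hy; omega)]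

theorem blw_filter {B : Finset ℕ} {x y : ℕ} (h : y ≤ x) : blw (B.filter (· < x)) y = blw B y := by
  unfold blw
  rw [filter_filter]
  congr 1
  refine filter_congr fun z _ => ?_
  constructor
  · exact fun h => h.2
  · exact fun h' => ⟨by omega, h'⟩

theorem x_fact (x k : ℕ) (hk : k ≤ x) :
    (x.factorial : ℝ) = ((x - k).factorial : ℝ) * ∏ z ∈ range k, ((x : ℝ) - z) := by
  induction k with
  | zero => simp
  | succ k ih =>
    rw [prod_range_succ, ih (by omega)]
    have h1 : x - k = (x - (k + 1)) + 1 := by omega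
    have h2 : ((x - k : ℕ) : ℝ) = (x : ℝ) - k := Nat.cast_sub (by omega)
    have h3 : ((x - k).factorial : ℝ) = ((x : ℝ) - k) * ((x - (k + 1)).factorial : ℝ) := by
      rw [← h2]
      conv_lhs => rw [h1, Nat.factorial_succ]
      rw [← h1]
      push_cast
      ring
    rw [h3]
    ring

/-- the hook factor of the row -/
noncomputable def hf (B : Finset ℕ) (x : ℕ) : ℝ :=
  ∏ b ∈ B.filter (· < x), (((x : ℝ) - blw B b) / ((x : ℝ) - b))

/-- **hooks = factorial of the row length times the hook factor** -/
theorem hk_eq (B : Finset ℕ) (x : ℕ) : hk B x = ((ln B x).factorial : ℝ) * hf B x := by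
  have h1 : (x.factorial : ℝ) = ((ln B x).factorial : ℝ) *
      ∏ b ∈ B.filter (· < x), ((x : ℝ) - blw B b) := by
    have e1 := x_fact x (blw B x) (blw_le B x)
    have e2 : ∏ b ∈ B.filter (· < x), ((x : ℝ) - blw B b) =
        ∏ z ∈ range (blw B x), ((x : ℝ) - z) := by
      unfold blw
      rw [← prod_blw (fun z => (x : ℝ) - z) (B.filter (· < x))]
      refine prod_congr rfl fun b hb => ?_
      rw [blw_filter (mem_filter.1 hb).2.le]
      rfl
    rw [e2]
    exact e1
  unfold hk hf
  rw [h1, prod_div_distrib, mul_div_assoc]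

theorem hf_factor {B : Finset ℕ} {x b : ℕ} (hb : b < x) :
    ((x : ℝ) - blw B b) / ((x : ℝ) - b) = 1 / (1 - (ln B b : ℝ) / ((x : ℝ) - blw B b)) := by
  have h1 : (b : ℝ) < x := by exact_mod_cast hb
  have h2 : (blw B b : ℝ) ≤ b := by exact_mod_cast blw_le B b
  have h3 : (ln B b : ℝ) = (b : ℝ) - blw B b := by
    have := ln_add B b
    have : ((ln B b + blw B b : ℕ) : ℝ) = b := by exact_mod_cast this
    push_cast at this
    linarith
  have h4 : (x : ℝ) - blw B b ≠ 0 := by linarith
  have h5 : (x : ℝ) - b ≠ 0 := by linarith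
  have h6 : 1 - (ln B b : ℝ) / ((x : ℝ) - blw B b) = ((x : ℝ) - b) / ((x : ℝ) - blw B b) := by
    rw [h3, eq_div_iff h4, sub_mul, one_mul, div_mul_cancel₀ _ h4]
    ring
  rw [h6, one_div_div]

theorem one_le_hf (B : Finset ℕ) (x : ℕ) : 1 ≤ hf B x := by
  unfold hf
  have : ∀ b ∈ B.filter (· < x), (1 : ℝ) ≤ ((x : ℝ) - blw B b) / ((x : ℝ) - b) := by
    intro b hb
    have h1 : (b : ℝ) < x := by exact_mod_cast (mem_filter.1 hb).2
    have h2 : (blw B b : ℝ) ≤ b := by exact_mod_cast blw_le B b
    rw [le_div_iff₀ (by linarith)]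
    linarith
  calc (1 : ℝ) = ∏ b ∈ B.filter (· < x), (1 : ℝ) := by rw [prod_const_one]
    _ ≤ _ := prod_le_prod (fun _ _ => zero_le_one) this

end Pool.JM
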