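import Pool.Agent.Work.MP_46fa68_11.Hook

/-!
# MP_46fa68_co: bounds of the hook factor of a row

`hfr B x z` is the part of the hook factor of the row `x` which comes from the rows below `z`.
`hfr_le`: Weierstrass bound; `hfr_le_exp`: exponential bound; `hf_next`: the row below split off;
`hf_cheb`: the bound `∏_(l ≤ a) (1 + ρ/l)`, `ρ ≥ (boxes below)/a` (Chebyshev).
-/

set_option autoImplicit false

open Finset

namespace Pool.JM

/-- the part of the hook factor of `x` from the beads below `z` -/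
noncomputable def hfr (B : Finset ℕ) (x z : ℕ) : ℝ :=
  ∏ b ∈ B.filter (· < z), (((x : ℝ) - blw B b) / ((x : ℝ) - b))

theorem hf_eq_hfr (B : Finset ℕ) (x : ℕ) : hf B x = hfr B x x := rfl

theorem hfr_pos {B : Finset ℕ} {x z : ℕ} (hz : z ≤ x) : 0 < hfr B x z := by
  refine prod_pos fun b hb => ?_
  have h1 : (b : ℝ) < x := by
    have := (mem_filter.1 hb).2
    exact_mod_cast (by omega : b < x)
  have h2 : (blw B b : ℝ) ≤ b := by exact_mod_cast blw_le B b
  exact div_pos (by linarith) (by linarith)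

theorem one_le_hfr {B : Finset ℕ} {x z : ℕ} (hz : z ≤ x) : 1 ≤ hfr B x z := by
  unfold hfr
  have : ∀ b ∈ B.filter (· < z), (1 : ℝ) ≤ ((x : ℝ) - blw B b) / ((x : ℝ) - b) := by
    intro b hb
    have h1 : (b : ℝ) < x := by
      have := (mem_filter.1 hb).2
      exact_mod_cast (by omega : b < x)
    have h2 : (blw B b : ℝ) ≤ b := by exact_mod_cast blw_le B b
    rw [le_div_iff₀ (by linarith)]
    linarith
  calc (1 : ℝ) = ∏ b ∈ B.filter (· < z), (1 : ℝ) := by rw [prod_const_one]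
    _ ≤ _ := prod_le_prod (fun _ _ => zero_le_one) this

/-- Weierstrass -/
theorem prod_inv_le {ι : Type*} [DecidableEq ι] (S : Finset ι) (s : ι → ℝ) (hs : ∀ i ∈ S, 0 ≤ s i)
    (h1 : ∑ i ∈ S, s i < 1) : ∏ i ∈ S, (1 / (1 - s i)) ≤ 1 / (1 - ∑ i ∈ S, s i) := by
  induction S using Finset.induction_on with
  | empty => simp
  | insert a S ha ih =>
    rw [sum_insert ha] at h1
    rw [prod_insert ha, sum_insert ha]
    have h2 : 0 ≤ ∑ i ∈ S, s i := sum_nonneg fun i hi => hs i (mem_insert_of_mem hi)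
    have h3 : 0 ≤ s a := hs a (mem_insert_self _ _)
    have h4 := ih (fun i hi => hs i (mem_insert_of_mem hi)) (by linarith)
    calc 1 / (1 - s a) * ∏ i ∈ S, (1 / (1 - s i))
        ≤ 1 / (1 - s a) * (1 / (1 - ∑ i ∈ S, s i)) := by
          refine mul_le_mul_of_nonneg_left h4 ?_
          exact div_nonneg zero_le_one (by linarith)
      _ = 1 / ((1 - s a) * (1 - ∑ i ∈ S, s i)) := by
          rw [one_div_mul_one_div]
      _ ≤ 1 / (1 - (s a + ∑ i ∈ S, s i)) := by
          refine one_div_le_one_div_of_le (by linarith) ?_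
          nlinarith [mul_nonneg h3 h2]

theorem blw_lt_of_mem {B : Finset ℕ} {b z : ℕ} (hb : b ∈ B) (h : b < z) : blw B b < blw B z := by
  unfold blw
  refine card_lt_card ?_
  rw [ssubset_iff_of_subset]
  · exact ⟨b, mem_filter.2 ⟨hb, h⟩, fun h' => lt_irrefl b (mem_filter.1 h').2⟩
  · intro y hy
    have := mem_filter.1 hy
    exact mem_filter.2 ⟨this.1, by omega⟩

/-- **the Weierstrass bound**: `hfr ≤ P/(P - R)`, `P = x - (beads below z) + 1`, `R` = boxes below `z` -/
theorem hfr_le {B : Finset ℕ} {x z : ℕ} (hz : z ≤ x) {P : ℝ} (hP : (x : ℝ) - blw B z + 1 = P)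
    (hR : (bx B z : ℝ) < P) : hfr B x z ≤ P / (P - bx B z) := by
  have hP0 : 0 < P := lt_of_le_of_lt (Nat.cast_nonneg _) hR
  have h1 : hfr B x z = ∏ b ∈ B.filter (· < z), (1 / (1 - (ln B b : ℝ) / ((x : ℝ) - blw B b))) := by
    unfold hfr
    refine prod_congr rfl fun b hb => hf_factor ?_
    have := (mem_filter.1 hb).2
    omega
  have h2 : ∀ b ∈ B.filter (· < z), (ln B b : ℝ) / ((x : ℝ) - blw B b) ≤ (ln B b : ℝ) / P := by
    intro b hb
    obtain ⟨hb1, hb2⟩ := mem_filter.1 hb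
    refine div_le_div_of_nonneg_left (Nat.cast_nonneg _) hP0 ?_
    have h3 : (blw B b : ℝ) + 1 ≤ blw B z := by
      exact_mod_cast Nat.succ_le_of_lt (blw_lt_of_mem hb1 hb2)
    linarith
  have h3 : ∀ b ∈ B.filter (· < z), 0 ≤ (ln B b : ℝ) / ((x : ℝ) - blw B b) := by
    intro b hb
    obtain ⟨hb1, hb2⟩ := mem_filter.1 hb
    refine div_nonneg (Nat.cast_nonneg _) ?_
    have h4 : (blw B b : ℝ) ≤ b := by exact_mod_cast blw_le B b
    have h5 : (b : ℝ) < x := by exact_mod_cast (by omega : b < x)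
    linarith
  have h4 : ∑ b ∈ B.filter (· < z), (ln B b : ℝ) / ((x : ℝ) - blw B b) ≤ (bx B z : ℝ) / P := by
    refine (sum_le_sum h2).trans (le_of_eq ?_)
    unfold bx
    rw [← sum_div]
    push_cast
    rfl
  have h5 : (bx B z : ℝ) / P < 1 := by rwa [div_lt_one hP0]
  rw [h1]
  refine (prod_inv_le _ _ h3 (by linarith)).trans ?_
  have h6 : 1 / (1 - ∑ b ∈ B.filter (· < z), (ln B b : ℝ) / ((x : ℝ) - blw B b)) ≤
      1 / (1 - (bx B z : ℝ) / P) := one_div_le_one_div_of_le (by linarith) (by linarith)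
  refine h6.trans (le_of_eq ?_)
  have h7 : 1 - (bx B z : ℝ) / P = (P - bx B z) / P := by
    rw [sub_div, div_self hP0.ne']
  rw [h7, one_div_div]

/-- **the exponential bound**: `hfr ≤ exp (R/d)` if all the beads below `z` have distance `≥ d` to `x` -/
theorem hfr_le_exp {B : Finset ℕ} {x z : ℕ} {d : ℝ} (hd : 0 < d)
    (h : ∀ b ∈ B, b < z → d ≤ (x : ℝ) - b) : hfr B x z ≤ Real.exp ((bx B z : ℝ) / d) := by
  have h1 : ∀ b ∈ B.filter (· < z), ((x : ℝ) - blw B b) / ((x : ℝ) - b) ≤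
      Real.exp ((ln B b : ℝ) / d) := by
    intro b hb
    obtain ⟨hb1, hb2⟩ := mem_filter.1 hb
    have h2 := h b hb1 hb2
    have h3 : (ln B b : ℝ) = (b : ℝ) - blw B b := by
      have : ((ln B b + blw B b : ℕ) : ℝ) = b := by exact_mod_cast ln_add B b
      push_cast at this
      linarith
    have h4 : ((x : ℝ) - blw B b) / ((x : ℝ) - b) = (ln B b : ℝ) / ((x : ℝ) - b) + 1 := by
      rw [h3]
      have : (x : ℝ) - b ≠ 0 := by linarith
      field_simp
      ring
    rw [h4]
    have h5 : (ln B b : ℝ) / ((x : ℝ) - b) ≤ (ln B b : ℝ) / d :=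
      div_le_div_of_nonneg_left (Nat.cast_nonneg _) hd h2
    have h6 := Real.add_one_le_exp ((ln B b : ℝ) / d)
    linarith
  unfold hfr
  refine (prod_le_prod (fun b hb => ?_) h1).trans (le_of_eq ?_)
  · obtain ⟨hb1, hb2⟩ := mem_filter.1 hb
    have h2 := h b hb1 hb2
    have h4 : (blw B b : ℝ) ≤ b := by exact_mod_cast blw_le B b
    exact div_nonneg (by linarith) (by linarith)
  · rw [← Real.exp_sum, ← sum_div]
    unfold bx
    push_cast
    rfl

/-- the next bead below -/
theorem filter_next {B : Finset ℕ} {x y : ℕ} (hy : y ∈ B) (hyx : y < x)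
    (h : ∀ z ∈ B, z < x → z ≤ y) : B.filter (· < x) = insert y (B.filter (· < y)) := by
  ext z
  simp only [mem_filter, mem_insert]
  constructor
  · rintro ⟨h1, h2⟩
    have := h z h1 h2
    by_cases hz : z = y
    · exact Or.inl hz
    · exact Or.inr ⟨h1, by omega⟩
  · rintro (rfl | ⟨h1, h2⟩)
    · exact ⟨hy, hyx⟩
    · exact ⟨h1, by omega⟩

theorem notMem_below (B : Finset ℕ) (y : ℕ) : y ∉ B.filter (· < y) :=
  fun h => lt_irrefl y (mem_filter.1 h).2

theorem blw_next {B : Finset ℕ} {x y : ℕ} (hy : y ∈ B) (hyx : y < x)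
    (h : ∀ z ∈ B, z < x → z ≤ y) : blw B x = blw B y + 1 := by
  unfold blw
  rw [filter_next hy hyx h, card_insert_of_notMem (notMem_below B y)]

theorem bx_next {B : Finset ℕ} {x y : ℕ} (hy : y ∈ B) (hyx : y < x)
    (h : ∀ z ∈ B, z < x → z ≤ y) : bx B x = ln B y + bx B y := by
  unfold bx
  rw [filter_next hy hyx h, sum_insert (notMem_below B y)]

/-- distance to the next bead = difference of the row lengths plus 1 -/
theorem dist_next {B : Finset ℕ} {x y : ℕ} (hy : y ∈ B) (hyx : y < x)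
    (h : ∀ z ∈ B, z < x → z ≤ y) : (x : ℝ) - y = (ln B x : ℝ) - ln B y + 1 := by
  have h1 := blw_next hy hyx h
  have h2 := ln_add B x
  have h3 := ln_add B y
  have h4 : ((ln B x + blw B x : ℕ) : ℝ) = x := by exact_mod_cast h2
  have h5 : ((ln B y + blw B y : ℕ) : ℝ) = y := by exact_mod_cast h3
  have h6 : (blw B x : ℝ) = blw B y + 1 := by exact_mod_cast h1
  push_cast at h4 h5
  linarith

theorem ln_le_next {B : Finset ℕ} {x y : ℕ} (hy : y ∈ B) (hyx : y < x)
    (h : ∀ z ∈ B, z < x → z ≤ y) : ln B y ≤ ln B x := by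
  have h1 := blw_next hy hyx h
  have h2 := ln_add B x
  have h3 := ln_add B y
  omega

/-- **the hook factor with the next row split off** -/
theorem hf_next {B : Finset ℕ} {x y : ℕ} (hy : y ∈ B) (hyx : y < x)
    (h : ∀ z ∈ B, z < x → z ≤ y) :
    hf B x = ((ln B x : ℝ) + 1) / ((ln B x : ℝ) - ln B y + 1) * hfr B x y := by
  unfold hf hfr
  rw [filter_next hy hyx h, prod_insert (notMem_below B y), dist_next hy hyx h]
  congr 2
  have h1 := blw_next hy hyx h
  have h2 := ln_add B x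
  have h4 : ((ln B x + blw B x : ℕ) : ℝ) = x := by exact_mod_cast h2
  have h6 : (blw B x : ℝ) = blw B y + 1 := by exact_mod_cast h1
  push_cast at h4
  linarith

/-- the bound of the rest of the hook factor, with the row lengths `a = ln B x`, `ln B y`, and the boxes
`R = bx B y` below the next row: `(a + 2)/(a + 2 - R)` -/
theorem hfr_next_le {B : Finset ℕ} {x y : ℕ} (hy : y ∈ B) (hyx : y < x)
    (h : ∀ z ∈ B, z < x → z ≤ y) (hR : (bx B y : ℝ) < (ln B x : ℝ) + 2) :
    hfr B x y ≤ ((ln B x : ℝ) + 2) / ((ln B x : ℝ) + 2 - bx B y) := by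
  have h1 := blw_next hy hyx h
  have h2 := ln_add B x
  have h4 : ((ln B x + blw B x : ℕ) : ℝ) = x := by exact_mod_cast h2
  have h6 : (blw B x : ℝ) = blw B y + 1 := by exact_mod_cast h1
  push_cast at h4
  exact hfr_le hyx.le (by linarith) hR

/-- the exponential bound with the row lengths: all the rows below the next row are not longer -/
theorem hfr_next_le_exp {B : Finset ℕ} {x y : ℕ} (hy : y ∈ B) (hyx : y < x)
    (h : ∀ z ∈ B, z < x → z ≤ y) :
    hfr B x y ≤ Real.exp ((bx B y : ℝ) / ((ln B x : ℝ) - ln B y + 2)) := by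
  have h0 : (ln B y : ℝ) ≤ ln B x := by exact_mod_cast ln_le_next hy hyx h
  refine hfr_le_exp (by linarith) fun b hb hby => ?_
  have h1 := dist_next hy hyx h
  have h2 : (b : ℝ) + 1 ≤ y := by exact_mod_cast Nat.succ_le_of_lt hby
  linarith

end Pool.JM
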