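import Pool.Agent.Work.MP_46fa68_T.LiftX

/-!
# MP_46fa68_co: the crude bounds of the majorant `YR` (plain raising operator)

`YR_le`: weights `W i ≤ w i * ex` on the levels `i ≤ T` give on the level `l > T` the bound
`YR ≤ (∑_i C(l,i) C(l-i-1,T-i) w_i) * ex`; `YR_le_crude` is the case `w_i = c / (m+T-i)!`.
-/

set_option autoImplicit false

open Finset

namespace Pool.JM

/-- the plain raising operator on functions bounded by a multiple of `ex` -/
theorem Foi_le_ex {M i : ℕ} {y : Finset ℕ → ℝ} {w : ℝ}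
    (hy : ∀ C ∈ Lv M i, y C ≤ w * ex C) : ∀ (k : ℕ), ∀ C ∈ Lv M (i + k),
    (Fo fun _ => 1)^[k] y C ≤ w * (((i + k).factorial : ℝ) / (i.factorial : ℝ)) * ex C
  | 0, C, hC => by
    have hi : (i.factorial : ℝ) ≠ 0 := by exact_mod_cast i.factorial_ne_zero
    have h := hy C hC
    simp only [Function.iterate_zero, id, Nat.add_zero]
    rw [div_self hi, mul_one]
    exact h
  | k + 1, C, hC => by
    have hC' : C ∈ Lv M (i + k + 1) := hC
    rw [Function.iterate_succ_apply']
    have h1 : Fo (fun _ => 1) ((Fo fun _ => 1)^[k] y) C =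
        ∑ x ∈ rm C, ((Fo fun _ => 1)^[k] y) (mvd C x) := by
      unfold Fo
      exact sum_congr rfl fun x _ => one_mul _
    rw [h1]
    have h2 : ∑ x ∈ rm C, ((Fo fun _ => 1)^[k] y) (mvd C x) ≤
        ∑ x ∈ rm C, w * (((i + k).factorial : ℝ) / (i.factorial : ℝ)) * ex (mvd C x) :=
      sum_le_sum fun x hx => Foi_le_ex hy k _ (mvd_mem hC' hx)
    refine h2.trans (le_of_eq ?_)
    rw [← mul_sum, sum_rm_ex hC']
    have hf : ((i + (k + 1)).factorial : ℝ) = ((i + k + 1 : ℕ) : ℝ) * ((i + k).factorial : ℝ) := by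
      rw [show i + (k + 1) = (i + k) + 1 by omega, Nat.factorial_succ]
      push_cast
      ring
    rw [hf]
    ring

/-- the same with equality, for `ex` itself -/
theorem Foi_ex {M i : ℕ} : ∀ (k : ℕ), ∀ C ∈ Lv M (i + k),
    (Fo fun _ => 1)^[k] ex C = (((i + k).factorial : ℝ) / (i.factorial : ℝ)) * ex C
  | 0, C, _ => by
    have hi : (i.factorial : ℝ) ≠ 0 := by exact_mod_cast i.factorial_ne_zero
    simp only [Function.iterate_zero, id, Nat.add_zero]
    rw [div_self hi, one_mul]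
  | k + 1, C, hC => by
    have hC' : C ∈ Lv M (i + k + 1) := hC
    rw [Function.iterate_succ_apply']
    have h1 : Fo (fun _ => 1) ((Fo fun _ => 1)^[k] ex) C =
        ∑ x ∈ rm C, ((Fo fun _ => 1)^[k] ex) (mvd C x) := by
      unfold Fo
      exact sum_congr rfl fun x _ => one_mul _
    rw [h1, sum_congr rfl fun x hx => Foi_ex k _ (mvd_mem hC' hx), ← mul_sum, sum_rm_ex hC']
    have hf : ((i + (k + 1)).factorial : ℝ) = ((i + k + 1 : ℕ) : ℝ) * ((i + k).factorial : ℝ) := by
      rw [show i + (k + 1) = (i + k) + 1 by omega, Nat.factorial_succ]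
      push_cast
      ring
    rw [hf]
    ring

/-- the size of the coefficient -/
theorem abs_dk {n : ℕ} (hn : 0 < n) (s : ℕ) :
    |dk n s| = ((n - 1).choose s : ℝ) / (n.factorial : ℝ) := by
  unfold dk
  rw [if_neg hn.ne', abs_div, abs_mul, abs_pow, abs_neg, abs_one, one_pow, one_mul,
    abs_of_nonneg (Nat.cast_nonneg _), abs_of_nonneg (Nat.cast_nonneg _)]

/-- on functions which are nonnegative on the level `i` the iterates are nonnegative -/
theorem Foi_nonneg_lv {M i : ℕ} {y : Finset ℕ → ℝ} (hy : ∀ C ∈ Lv M i, 0 ≤ y C) :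
    ∀ (k : ℕ), ∀ C ∈ Lv M (i + k), 0 ≤ (Fo fun _ => 1)^[k] y C
  | 0, C, hC => hy C hC
  | k + 1, C, hC => by
    have hC' : C ∈ Lv M (i + k + 1) := hC
    rw [Function.iterate_succ_apply']
    unfold Fo
    refine sum_nonneg fun x hx => ?_
    rw [one_mul]
    exact Foi_nonneg_lv hy k _ (mvd_mem hC' hx)

theorem YR_nonneg {M T : ℕ} {W : ℕ → Finset ℕ → ℝ}
    (hW : ∀ i ≤ T, ∀ C ∈ Lv M i, 0 ≤ W i C) (l : ℕ) {C : Finset ℕ} (hC : C ∈ Lv M l) :
    0 ≤ YR T W l C := by
  unfold YR
  refine sum_nonneg fun i hi => ?_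
  split_ifs with h
  · refine mul_nonneg (abs_nonneg _) ?_
    refine Foi_nonneg_lv (hW i (by have := mem_range.1 hi; omega)) (l - i) C ?_
    rwa [Nat.add_sub_cancel' h]
  · exact le_rfl

/-- **the bound of `YR` beyond the level `T`** -/
theorem YR_le {M T : ℕ} {W : ℕ → Finset ℕ → ℝ} {w : ℕ → ℝ}
    (hW : ∀ i ≤ T, ∀ C ∈ Lv M i, W i C ≤ w i * ex C) {l : ℕ} (hl : T < l) {C : Finset ℕ}
    (hC : C ∈ Lv M l) :
    YR T W l C ≤
      (∑ i ∈ range (T + 1), (l.choose i : ℝ) * ((l - i - 1).choose (T - i) : ℝ) * w i) * ex C := by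
  unfold YR
  rw [sum_mul]
  refine sum_le_sum fun i hi => ?_
  have hi' : i ≤ T := by
    have := mem_range.1 hi
    omega
  have hil : i ≤ l := by omega
  rw [if_pos hil, abs_dk (by omega : 0 < l - i)]
  have h1 : (Fo fun _ => 1)^[l - i] (W i) C ≤
      w i * ((l.factorial : ℝ) / (i.factorial : ℝ)) * ex C := by
    have h := Foi_le_ex (hW i hi') (l - i) C (by rwa [Nat.add_sub_cancel' hil])
    rwa [Nat.add_sub_cancel' hil] at h
  have h2 : (0 : ℝ) ≤ ((l - i - 1).choose (T - i) : ℝ) / ((l - i).factorial : ℝ) := by positivity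
  refine (mul_le_mul_of_nonneg_left h1 h2).trans (le_of_eq ?_)
  have h3 : (l.choose i : ℝ) = (l.factorial : ℝ) / ((i.factorial : ℝ) * ((l - i).factorial : ℝ)) := by
    rw [Nat.cast_choose ℝ hil]
  rw [h3]
  have a1 : (i.factorial : ℝ) ≠ 0 := by exact_mod_cast i.factorial_ne_zero
  have a2 : ((l - i).factorial : ℝ) ≠ 0 := by exact_mod_cast (l - i).factorial_ne_zero
  field_simp

/-- **the crude bound** -/
theorem YR_le_crude {M T m : ℕ} {W : ℕ → Finset ℕ → ℝ} {c : ℝ} (hc : 0 ≤ c)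
    (hW : ∀ i ≤ T, ∀ C ∈ Lv M i, W i C ≤ c * ex C / ((m + T - i).factorial : ℝ)) {l : ℕ}
    (hl : T < l) {C : Finset ℕ} (hC : C ∈ Lv M l) :
    YR T W l C ≤ c * 2 ^ T / (m.factorial : ℝ) * (l.choose T : ℝ) * ex C := by
  have h1 := YR_le (M := M) (T := T) (W := W) (w := fun i => c / ((m + T - i).factorial : ℝ))
    (fun i hi C hC => (hW i hi C hC).trans (le_of_eq (by ring))) hl hC
  refine h1.trans (mul_le_mul_of_nonneg_right ?_ (ex_pos C).le)
  have hm : (0 : ℝ) < (m.factorial : ℝ) := by exact_mod_cast m.factorial_pos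
  have h2 : ∀ i ∈ range (T + 1), (l.choose i : ℝ) * ((l - i - 1).choose (T - i) : ℝ) *
      (c / ((m + T - i).factorial : ℝ)) ≤ c / (m.factorial : ℝ) * (l.choose T : ℝ) * (T.choose i : ℝ) := by
    intro i hi
    have hi' : i ≤ T := by
      have := mem_range.1 hi
      omega
    have b1 : (l.choose i : ℝ) * ((l - i - 1).choose (T - i) : ℝ) ≤
        (l.choose T : ℝ) * (T.choose i : ℝ) := by
      have e : l.choose T * T.choose i = l.choose i * (l - i).choose (T - i) :=
        Nat.choose_mul hi'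
      have e2 : (l - i - 1).choose (T - i) ≤ (l - i).choose (T - i) :=
        Nat.choose_le_choose _ (Nat.sub_le _ _)
      have e3 : l.choose i * (l - i - 1).choose (T - i) ≤ l.choose T * T.choose i := by
        rw [e]
        exact Nat.mul_le_mul_left _ e2
      exact_mod_cast e3
    have b2 : c / ((m + T - i).factorial : ℝ) ≤ c / (m.factorial : ℝ) := by
      refine div_le_div_of_nonneg_left hc hm ?_
      exact_mod_cast Nat.factorial_le (by omega : m ≤ m + T - i)
    have b3 : (0 : ℝ) ≤ c / ((m + T - i).factorial : ℝ) := by positivity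
    have b4 : (0 : ℝ) ≤ (l.choose T : ℝ) * (T.choose i : ℝ) := by positivity
    calc (l.choose i : ℝ) * ((l - i - 1).choose (T - i) : ℝ) * (c / ((m + T - i).factorial : ℝ))
        ≤ ((l.choose T : ℝ) * (T.choose i : ℝ)) * (c / (m.factorial : ℝ)) :=
          mul_le_mul b1 b2 b3 b4
      _ = c / (m.factorial : ℝ) * (l.choose T : ℝ) * (T.choose i : ℝ) := by ring
  refine (sum_le_sum h2).trans (le_of_eq ?_)
  rw [← mul_sum]
  have h3 : ∑ i ∈ range (T + 1), (T.choose i : ℝ) = 2 ^ T := by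
    have := Nat.sum_range_choose T
    exact_mod_cast this
  rw [h3]
  ring

end Pool.JM
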